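import Mathlib

set_option autoImplicit false

namespace Pool.Agent.Lib.MP_2fc951_gt

open Metric

/-- Chord data: for every `k` an involution of `ℕ` fixing `0` and everything beyond a bound. -/
structure Chords where
  σ : ℕ → ℕ → ℕ
  invol : ∀ k j, σ k (σ k j) = j
  zero : ∀ k, σ k 0 = 0
  bd : ℕ → ℕ
  fin : ∀ k j, bd k < j → σ k j = j

/-- Vertices of the comb: `(k, i)` is the vertex at height `i` on the `k`-th tooth. -/
@[ext] structure V (D : Chords) where
  k : ℕ
  i : ℕ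

variable {D : Chords}

/-- The comb with chords: spine `(k,0)`, teeth `(k,i)`, and, in tooth `k`, chords joining the
heights `(k+1) * j` and `(k+1) * σ k j`. -/
def G (D : Chords) : SimpleGraph (V D) where
  Adj x y := x ≠ y ∧ ((x.k = y.k ∧ (x.i = y.i + 1 ∨ y.i = x.i + 1)) ∨
    (x.i = 0 ∧ y.i = 0 ∧ (x.k = y.k + 1 ∨ y.k = x.k + 1)) ∨
    (x.k = y.k ∧ ∃ j, x.i = (x.k + 1) * j ∧ y.i = (x.k + 1) * D.σ x.k j))
  symm := ⟨by
    rintro x y ⟨hne, h⟩
    refine ⟨hne.symm, ?_⟩
    rcases h with ⟨h1, h2⟩ | ⟨h1, h2, h3⟩ | ⟨h1, j, h2, h3⟩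
    · exact Or.inl ⟨h1.symm, h2.symm⟩
    · exact Or.inr (Or.inl ⟨h2, h1, h3.symm⟩)
    · refine Or.inr (Or.inr ⟨h1.symm, D.σ x.k j, ?_, ?_⟩)
      · rw [← h1]; exact h3
      · rw [← h1, D.invol]; exact h2⟩
  loopless := ⟨by rintro x ⟨h, _⟩; exact h rfl⟩

lemma adj_tooth (k i : ℕ) : (G D).Adj ⟨k, i⟩ ⟨k, i + 1⟩ :=
  ⟨by intro h; have := congrArg V.i h; simp at this, Or.inl ⟨rfl, Or.inr rfl⟩⟩

lemma adj_spine (k : ℕ) : (G D).Adj ⟨k, 0⟩ ⟨k + 1, 0⟩ :=
  ⟨by intro h; have := congrArg V.k h; simp at this, Or.inr (Or.inl ⟨rfl, rfl, Or.inr rfl⟩)⟩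

lemma adj_chord (k j : ℕ) (h : D.σ k j ≠ j) :
    (G D).Adj ⟨k, (k + 1) * j⟩ ⟨k, (k + 1) * D.σ k j⟩ :=
  ⟨by
    intro h'
    have := congrArg V.i h'
    have := Nat.eq_of_mul_eq_mul_left (Nat.succ_pos k) this
    exact h this.symm, Or.inr (Or.inr ⟨rfl, j, rfl, rfl⟩)⟩

lemma reach (x : V D) : (G D).Reachable ⟨0, 0⟩ x := by
  have h1 : ∀ k, (G D).Reachable ⟨0, 0⟩ ⟨k, 0⟩ := by
    intro k
    induction k with
    | zero => exact SimpleGraph.Reachable.refl _
    | succ k ih => exact ih.trans (adj_spine k).reachable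
  have h2 : ∀ k i, (G D).Reachable ⟨0, 0⟩ ⟨k, i⟩ := by
    intro k i
    induction i with
    | zero => exact h1 k
    | succ i ih => exact ih.trans (adj_tooth k i).reachable
  exact h2 x.k x.i

lemma conn : (G D).Connected := by
  haveI : Nonempty (V D) := ⟨⟨0, 0⟩⟩
  exact ⟨fun x y => (reach x).symm.trans (reach y)⟩

noncomputable instance : MetricSpace (V D) where
  dist x y := ((G D).dist x y : ℝ)
  dist_self x := by simp
  dist_comm x y := by
    change ((G D).dist x y : ℝ) = ((G D).dist y x : ℝ)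
    rw [SimpleGraph.dist_comm]
  dist_triangle x y z := by
    change ((G D).dist x z : ℝ) ≤ ((G D).dist x y : ℝ) + ((G D).dist y z : ℝ)
    exact_mod_cast conn.dist_triangle
  eq_of_dist_eq_zero := by
    intro x y h
    have h' : ((G D).dist x y : ℝ) = 0 := h
    exact conn.dist_eq_zero_iff.mp (by exact_mod_cast h')

lemma dist_def (x y : V D) : dist x y = ((G D).dist x y : ℝ) := rfl

lemma dist_of_adj {x y : V D} (h : (G D).Adj x y) : dist x y = 1 := by
  rw [dist_def, SimpleGraph.dist_eq_one_iff_adj.mpr h]; simp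

open Classical in
/-- All neighbours of a vertex. -/
noncomputable def nb (x : V D) : Finset (V D) :=
  {⟨x.k, x.i - 1⟩, ⟨x.k, x.i + 1⟩, ⟨x.k - 1, x.i⟩, ⟨x.k + 1, x.i⟩,
    ⟨x.k, (x.k + 1) * D.σ x.k (x.i / (x.k + 1))⟩}

lemma mem_nb {x y : V D} (h : (G D).Adj x y) : y ∈ nb x := by
  obtain ⟨xk, xi⟩ := x
  obtain ⟨yk, yi⟩ := y
  obtain ⟨hne, h⟩ := h
  simp only [nb, Finset.mem_insert, Finset.mem_singleton, V.mk.injEq]
  simp only at h
  rcases h with ⟨h1, h2⟩ | ⟨h1, h2, h3⟩ | ⟨h1, j, h2, h3⟩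
  · rcases h2 with h2 | h2
    · left; omega
    · right; left; omega
  · rcases h3 with h3 | h3
    · right; right; left; omega
    · right; right; right; left; omega
  · right; right; right; right
    refine ⟨h1.symm, ?_⟩
    rw [h3, h2, Nat.mul_div_cancel_left _ (Nat.succ_pos xk)]

lemma card_nb (x : V D) : (nb x).card ≤ 5 := by
  classical
  unfold nb
  exact Finset.card_le_five

open Classical in
/-- The ball of radius `n` -/
noncomputable def B : ℕ → V D → Finset (V D)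
  | 0, x => {x}
  | n + 1, x => {x} ∪ (nb x).biUnion (B n)

lemma card_B (n : ℕ) (x : V D) : (B n x).card ≤ 6 ^ n := by
  classical
  induction n generalizing x with
  | zero => simp [B]
  | succ n ih =>
    calc (B (n + 1) x).card ≤ ({x} : Finset (V D)).card + ((nb x).biUnion (B n)).card := by
          rw [B]; exact Finset.card_union_le _ _
      _ ≤ 1 + ∑ z ∈ nb x, (B n z).card := by
          gcongr
          · simp
          · exact Finset.card_biUnion_le
      _ ≤ 1 + ∑ z ∈ nb x, 6 ^ n := by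
          gcongr with z _
          exact ih z
      _ = 1 + (nb x).card * 6 ^ n := by rw [Finset.sum_const, smul_eq_mul]
      _ ≤ 1 + 5 * 6 ^ n := by gcongr; exact card_nb x
      _ ≤ 6 ^ n + 5 * 6 ^ n := by gcongr; exact Nat.one_le_pow _ _ (by norm_num)
      _ = 6 ^ (n + 1) := by ring

lemma walk_mem_B {x y : V D} (p : (G D).Walk x y) (n : ℕ) (h : p.length ≤ n) : y ∈ B n x := by
  classical
  induction p generalizing n with
  | nil => cases n <;> simp [B]
  | cons hadj p ih =>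
    cases n with
    | zero => simp at h
    | succ n =>
      rw [B, Finset.mem_union, Finset.mem_biUnion]
      right
      exact ⟨_, mem_nb hadj, ih n (by simpa using h)⟩

lemma mem_B_of_dist {x y : V D} {n : ℕ} (h : dist x y ≤ n) : y ∈ B n x := by
  obtain ⟨p, hp⟩ := (conn (D := D)).exists_walk_length_eq_dist x y
  apply walk_mem_B p
  rw [hp]
  rw [dist_def] at h
  exact_mod_cast h

/-- The comb has bounded geometry. -/
lemma bddGeom (D : Chords) : ∀ r : ℝ, 0 < r → ∃ N : ℕ, ∀ y : V D, ∀ s : Finset (V D),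
    (↑s : Set (V D)) ⊆ Metric.closedBall y r → s.card ≤ N := by
  intro r _
  refine ⟨6 ^ ⌈r⌉₊, fun y s hs => ?_⟩
  refine (Finset.card_le_card ?_).trans (card_B ⌈r⌉₊ y)
  intro z hz
  apply mem_B_of_dist
  have := hs hz
  rw [mem_closedBall, dist_comm] at this
  exact this.trans (Nat.le_ceil r)

end Pool.Agent.Lib.MP_2fc951_gt
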