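import Mathlib

set_option autoImplicit false

namespace Pool.Agent.Lib.MP_2fc951_gt

open Metric

/-- A set all of whose finite subsets have at most `N` elements can be coded injectively by
numbers less than `N`. -/
lemma exists_code {α : Type*} (A : Set α) (N : ℕ)
    (h : ∀ s : Finset α, (↑s : Set α) ⊆ A → s.card ≤ N) :
    ∃ c : α → ℕ, Set.InjOn c A ∧ ∀ y ∈ A, c y < N := by
  classical
  have hfin : A.Finite := by
    by_contra hinf
    obtain ⟨t, ht, hc⟩ := Set.Infinite.exists_subset_card_eq (s := A) hinf (N + 1)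
    have := h t ht
    omega
  let s : Finset α := hfin.toFinset
  have hs : (↑s : Set α) = A := by simp [s]
  have hcard : s.card ≤ N := h s (by rw [hs])
  let e := s.equivFin
  refine ⟨fun y => if hy : y ∈ s then (e ⟨y, hy⟩ : ℕ) else 0, ?_, ?_⟩
  · intro x hx y hy hxy
    have hx' : x ∈ s := by rw [← Finset.mem_coe, hs]; exact hx
    have hy' : y ∈ s := by rw [← Finset.mem_coe, hs]; exact hy
    simp only [hx', hy', dif_pos] at hxy
    have := e.injective (Fin.ext hxy)
    simpa using this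
  · intro y hy
    have hy' : y ∈ s := by rw [← Finset.mem_coe, hs]; exact hy
    simp only [hy', dif_pos]
    exact lt_of_lt_of_le (e ⟨y, hy'⟩).2 hcard

/-- factorials beat exponentials -/
lemma exists_factorial_gt (A C : ℕ) : ∃ m : ℕ, A * C ^ m < m.factorial := by
  have h := FloorSemiring.tendsto_pow_div_factorial_atTop (C : ℝ)
  have hpos : (0 : ℝ) < 1 / (A + 1) := by positivity
  have := (h.eventually (gt_mem_nhds hpos)).exists
  obtain ⟨m, hm⟩ := this
  refine ⟨m, ?_⟩
  have hf : (0 : ℝ) < m.factorial := by exact_mod_cast Nat.factorial_pos m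
  rw [div_lt_div_iff₀ hf (by positivity)] at hm
  have h2 : ((A * C ^ m : ℕ) : ℝ) < (m.factorial : ℝ) := by
    push_cast
    have hC : (0:ℝ) ≤ (C:ℝ)^m := by positivity
    nlinarith
  exact_mod_cast h2

/-- The counting lemma. -/
lemma count {X : Type*} [MetricSpace X] (N L : ℕ)
    (hN : ∀ x : X, ∀ s : Finset X, (↑s : Set X) ⊆ closedBall x L → s.card ≤ N)
    (F : Set X) (hF : F.Finite) (s : ℕ) (hs : 0 < s) :
    ∃ m : ℕ, ∃ τ : Equiv.Perm (Fin m), ¬ ∃ g : ℕ → X, g 0 ∈ F ∧
      (∀ i, dist (g i) (g (i + 1)) ≤ L) ∧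
      (∀ x, ∀ t : Finset ℕ, (∀ i ∈ t, g i = x) → t.card ≤ L) ∧
      (∀ a : Fin m, dist (g (s * ((a : ℕ) + 1))) (g (s * (m + (τ a : ℕ) + 1))) ≤ L) := by
  classical
  by_contra hcon
  push Not at hcon
  obtain ⟨m, hm⟩ := exists_factorial_gt hF.toFinset.card (N ^ (2 * s) * (N * L))
  choose g hg0 hg1 hg2 hg3 using hcon m
  choose c hc1 hc2 using fun x : X => exists_code (closedBall x L) N (hN x)
  -- truncated function
  let tr : (ℕ → X) → (ℕ → X) := fun h i => h (min i (2 * m * s))
  -- the code of the chord ends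
  have key : ∀ (h : ℕ → X) (i : ℕ), ∃ d : ℕ → ℕ,
      (∀ x, ∀ t : Finset ℕ, (∀ j ∈ t, j ≤ 2 * m * s ∧ h j = x) → t.card ≤ L) →
      Set.InjOn d {j | j ≤ 2 * m * s ∧ dist (h i) (h j) ≤ L} ∧
      ∀ j ∈ {j | j ≤ 2 * m * s ∧ dist (h i) (h j) ≤ L}, d j < N * L := by
    intro h i
    by_cases hfib : (∀ x, ∀ t : Finset ℕ, (∀ j ∈ t, j ≤ 2 * m * s ∧ h j = x) → t.card ≤ L)
    · obtain ⟨d, hd1, hd2⟩ := exists_code {j | j ≤ 2 * m * s ∧ dist (h i) (h j) ≤ L} (N * L) (by
        intro t ht
        have himg : (t.image h).card ≤ N := by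
          apply hN (h i)
          intro x hx
          simp only [Finset.coe_image, Set.mem_image, Finset.mem_coe] at hx
          obtain ⟨j, hj, rfl⟩ := hx
          have := (ht hj).2
          rw [mem_closedBall, dist_comm]
          exact this
        calc t.card ≤ (t.image h).card * L := by
              rw [mul_comm]
              apply Finset.card_le_mul_card_image
              intro x hx
              apply hfib x
              intro j hj
              simp only [Finset.mem_filter] at hj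
              exact ⟨(ht hj.1).1, hj.2⟩
          _ ≤ N * L := Nat.mul_le_mul_right _ himg)
      exact ⟨d, fun _ => ⟨hd1, hd2⟩⟩
    · exact ⟨fun _ => 0, fun h => absurd h hfib⟩
  choose d hd using key
  have hfibtr : ∀ τ : Equiv.Perm (Fin m), ∀ x, ∀ t : Finset ℕ,
      (∀ j ∈ t, j ≤ 2 * m * s ∧ tr (g τ) j = x) → t.card ≤ L := by
    intro τ x t ht
    apply hg2 τ x
    intro i hi
    obtain ⟨h1, h2⟩ := ht i hi
    simp only [tr, min_eq_left h1] at h2
    exact h2
  have hle1 : ∀ (a : ℕ), a < m → s * (a + 1) ≤ 2 * m * s := by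
    intro a ha
    calc s * (a + 1) ≤ s * (2 * m) := Nat.mul_le_mul_left _ (by omega)
      _ = 2 * m * s := by ring
  have hle2 : ∀ (a : ℕ), a < m → s * (m + a + 1) ≤ 2 * m * s := by
    intro a ha
    calc s * (m + a + 1) ≤ s * (2 * m) := Nat.mul_le_mul_left _ (by omega)
      _ = 2 * m * s := by ring
  have hmem : ∀ (τ : Equiv.Perm (Fin m)) (a : Fin m),
      (s * (m + (τ a : ℕ) + 1)) ∈ {j | j ≤ 2 * m * s ∧
        dist (tr (g τ) (s * ((a : ℕ) + 1))) (tr (g τ) j) ≤ L} := by
    intro τ a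
    refine ⟨hle2 _ (τ a).2, ?_⟩
    simp only [tr, min_eq_left (hle2 _ (τ a).2), min_eq_left (hle1 _ a.2)]
    exact hg3 τ a
  let Φ : Equiv.Perm (Fin m) → (hF.toFinset) × (Fin (2 * m * s) → Fin N) × (Fin m → Fin (N * L)) :=
    fun τ => (⟨g τ 0, by simpa using hg0 τ⟩,
      fun i => ⟨c (g τ i) (g τ (i + 1)), hc2 _ _ (by
        rw [mem_closedBall, dist_comm]; exact hg1 τ i)⟩,
      fun a => ⟨d (tr (g τ)) (s * ((a : ℕ) + 1)) (s * (m + (τ a : ℕ) + 1)),
        (hd _ _ (hfibtr τ)).2 _ (hmem τ a)⟩)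
  have hΦ : Function.Injective Φ := by
    intro τ τ' hττ
    have h1 : g τ 0 = g τ' 0 := by
      have := congrArg (fun p => (p.1 : X)) hττ
      simpa [Φ] using this
    have h2 : ∀ i : ℕ, i < 2 * m * s → c (g τ i) (g τ (i + 1)) = c (g τ' i) (g τ' (i + 1)) := by
      intro i hi
      have := congrArg (fun p => ((p.2.1 ⟨i, hi⟩ : Fin N) : ℕ)) hττ
      simpa [Φ] using this
    have h3 : ∀ a : Fin m, d (tr (g τ)) (s * ((a : ℕ) + 1)) (s * (m + (τ a : ℕ) + 1)) =
        d (tr (g τ')) (s * ((a : ℕ) + 1)) (s * (m + (τ' a : ℕ) + 1)) := by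
      intro a
      have := congrArg (fun p => ((p.2.2 a : Fin (N * L)) : ℕ)) hττ
      simpa [Φ] using this
    have h4 : ∀ i : ℕ, i ≤ 2 * m * s → g τ i = g τ' i := by
      intro i
      induction i with
      | zero => intro _; exact h1
      | succ i ih =>
        intro hi
        have e := ih (by omega)
        have hcode := h2 i (by omega)
        rw [← e] at hcode
        apply hc1 (g τ i) _ _ hcode
        · rw [mem_closedBall, dist_comm]; exact hg1 τ i
        · rw [mem_closedBall, dist_comm, e]; exact hg1 τ' i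
    have h5 : tr (g τ) = tr (g τ') := by
      funext i
      simp only [tr]
      exact h4 _ (min_le_right _ _)
    apply Equiv.ext
    intro a
    have hc := h3 a
    rw [← h5] at hc
    have hm2 := hmem τ' a
    rw [← h5] at hm2
    have := (hd _ _ (hfibtr τ)).1 (hmem τ a) hm2 hc
    have h6 : m + (τ a : ℕ) + 1 = m + (τ' a : ℕ) + 1 := Nat.eq_of_mul_eq_mul_left hs this
    apply Fin.ext
    omega
  have hcard := Fintype.card_le_of_injective Φ hΦ
  rw [Fintype.card_prod, Fintype.card_prod, Fintype.card_perm, Fintype.card_fin,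
    Fintype.card_fun, Fintype.card_fun, Fintype.card_fin, Fintype.card_fin, Fintype.card_fin,
    Fintype.card_fin, Fintype.card_coe] at hcard
  have : hF.toFinset.card * (N ^ (2 * m * s) * (N * L) ^ m) =
      hF.toFinset.card * (N ^ (2 * s) * (N * L)) ^ m := by
    rw [mul_pow (N ^ (2 * s)) (N * L) m, ← pow_mul]
    congr 3
    ring
  rw [this] at hcard
  omega

end Pool.Agent.Lib.MP_2fc951_gt
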