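import Mathlib
import Pool.Agent.Lib.MP_2fc951_gt.Count
import Pool.Agent.Lib.MP_2fc951_gt.Comb

set_option autoImplicit false

namespace Pool.Agent.Lib.MP_2fc951_gt

open Metric

/-- the involution of `ℕ` matching `a + 1` with `m + τ a + 1` -/
def sig (m : ℕ) (τ : Equiv.Perm (Fin m)) (j : ℕ) : ℕ :=
  if h : 1 ≤ j ∧ j ≤ m then m + (τ ⟨j - 1, by omega⟩ : ℕ) + 1
  else if h' : m + 1 ≤ j ∧ j ≤ 2 * m then (τ.symm ⟨j - m - 1, by omega⟩ : ℕ) + 1
  else j

lemma sig_low (m : ℕ) (τ : Equiv.Perm (Fin m)) (a : Fin m) :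
    sig m τ ((a : ℕ) + 1) = m + (τ a : ℕ) + 1 := by
  have h : 1 ≤ (a : ℕ) + 1 ∧ (a : ℕ) + 1 ≤ m := ⟨by omega, a.2⟩
  unfold sig
  rw [dif_pos h]
  congr

lemma sig_high (m : ℕ) (τ : Equiv.Perm (Fin m)) (b : Fin m) :
    sig m τ (m + (b : ℕ) + 1) = (τ.symm b : ℕ) + 1 := by
  have hb := b.2
  have h : ¬ (1 ≤ m + (b : ℕ) + 1 ∧ m + (b : ℕ) + 1 ≤ m) := by omega
  have h' : m + 1 ≤ m + (b : ℕ) + 1 ∧ m + (b : ℕ) + 1 ≤ 2 * m := by omega
  unfold sig
  rw [dif_neg h, dif_pos h']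
  congr
  omega

lemma sig_out (m : ℕ) (τ : Equiv.Perm (Fin m)) (j : ℕ) (h : j = 0 ∨ 2 * m < j) :
    sig m τ j = j := by
  unfold sig
  rw [dif_neg (by omega), dif_neg (by omega)]

lemma sig_invol (m : ℕ) (τ : Equiv.Perm (Fin m)) (j : ℕ) : sig m τ (sig m τ j) = j := by
  by_cases h0 : j = 0 ∨ 2 * m < j
  · rw [sig_out m τ j h0, sig_out m τ j h0]
  · by_cases h1 : j ≤ m
    · obtain ⟨a, rfl⟩ : ∃ a : Fin m, j = (a : ℕ) + 1 := ⟨⟨j - 1, by omega⟩, by simp; omega⟩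
      rw [sig_low, sig_high]; simp
    · obtain ⟨b, rfl⟩ : ∃ b : Fin m, j = m + (b : ℕ) + 1 :=
        ⟨⟨j - m - 1, by omega⟩, by simp; omega⟩
      rw [sig_high, sig_low]; simp

lemma countable_of_bddGeom {X : Type*} [MetricSpace X]
    (hX : ∀ r : ℝ, 0 < r → ∃ N : ℕ, ∀ x : X, ∀ s : Finset X,
        (↑s : Set X) ⊆ Metric.closedBall x r → s.card ≤ N) (x : X) (r : ℝ) :
    (closedBall x r).Finite := by
  obtain ⟨N, hN⟩ := hX (max r 1) (by positivity)
  by_contra hinf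
  obtain ⟨t, ht, hc⟩ := Set.Infinite.exists_subset_card_eq (s := closedBall x r) hinf (N + 1)
  have := hN x t (ht.trans (closedBall_subset_closedBall (le_max_left _ _)))
  omega

/-- For every nonempty space of bounded geometry there is a comb with chords that does not map
to it by a Lipschitz map with uniformly finite fibres. -/
theorem no_regular {X : Type*} [MetricSpace X] [Nonempty X]
    (hX : ∀ r : ℝ, 0 < r → ∃ N : ℕ, ∀ x : X, ∀ s : Finset X,
        (↑s : Set X) ⊆ Metric.closedBall x r → s.card ≤ N) :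
    ∃ D : Chords, ¬ ∃ f : V D → X, ∃ L : ℕ, 
      (∀ x y, dist x y ≤ 1 → dist (f x) (f y) ≤ L) ∧
      (∀ x, ∀ t : Finset (V D), (∀ y ∈ t, f y = x) → t.card ≤ L) := by
  classical
  have hfin := countable_of_bddGeom hX
  have hcount : Countable X := by
    let x0 : X := Classical.arbitrary X
    have : (Set.univ : Set X) = ⋃ n : ℕ, closedBall x0 n := (iUnion_closedBall_nat x0).symm
    have h2 : (Set.univ : Set X).Countable := by
      rw [this]
      exact Set.countable_iUnion fun n => (hfin x0 n).countable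
    exact Set.countable_univ_iff.mp h2
  obtain ⟨e, he⟩ := exists_surjective_nat (X × ℕ)
  have hc : ∀ k : ℕ, ∃ m : ℕ, ∃ τ : Equiv.Perm (Fin m), ¬ ∃ g : ℕ → X,
      g 0 ∈ closedBall (e k).1 ((e k).2 * k) ∧
      (∀ i, dist (g i) (g (i + 1)) ≤ (e k).2) ∧
      (∀ x, ∀ t : Finset ℕ, (∀ i ∈ t, g i = x) → t.card ≤ (e k).2) ∧
      (∀ a : Fin m, dist (g ((k + 1) * ((a : ℕ) + 1)))
        (g ((k + 1) * (m + (τ a : ℕ) + 1))) ≤ (e k).2) := by
    intro k
    obtain ⟨N, hN⟩ := hX (max (e k).2 1) (by positivity)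
    exact count N (e k).2 (fun x s hs => hN x s
      (hs.trans (closedBall_subset_closedBall (le_max_left _ _)))) _ (hfin _ _) (k + 1)
      (Nat.succ_pos k)
  choose m τ hmτ using hc
  let D : Chords :=
    { σ := fun k => sig (m k) (τ k)
      invol := fun k j => sig_invol _ _ _
      zero := fun k => sig_out _ _ _ (Or.inl rfl)
      bd := fun k => 2 * m k
      fin := fun k j h => sig_out _ _ _ (Or.inr h) }
  refine ⟨D, ?_⟩
  rintro ⟨f, L, hf1, hf2⟩
  obtain ⟨k, hk⟩ := he (f ⟨0, 0⟩, L)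
  apply hmτ k
  rw [hk]
  have hadj : ∀ x y, (G D).Adj x y → dist (f x) (f y) ≤ L := fun x y h =>
    hf1 x y (le_of_eq (dist_of_adj h))
  refine ⟨fun i => f ⟨k, i⟩, ?_, ?_, ?_, ?_⟩
  · have : ∀ n : ℕ, dist (f ⟨n, 0⟩) (f ⟨0, 0⟩) ≤ L * n := by
      intro n
      induction n with
      | zero => simp
      | succ n ih =>
        have h1 := hadj _ _ (adj_spine (D := D) n)
        rw [dist_comm] at h1
        have h2 := dist_triangle (f ⟨n + 1, 0⟩) (f ⟨n, 0⟩) (f ⟨0, 0⟩)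
        push_cast
        linarith
    exact this k
  · intro i
    exact hadj _ _ (adj_tooth k i)
  · intro x t ht
    have hinj : Function.Injective (fun i : ℕ => (⟨k, i⟩ : V D)) := by
      intro i j hij
      exact congrArg V.i hij
    rw [← Finset.card_image_of_injective t hinj]
    apply hf2 x
    intro y hy
    rw [Finset.mem_image] at hy
    obtain ⟨i, hi, rfl⟩ := hy
    exact ht i hi
  · intro a
    have hne : D.σ k ((a : ℕ) + 1) ≠ (a : ℕ) + 1 := by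
      change sig (m k) (τ k) ((a : ℕ) + 1) ≠ (a : ℕ) + 1
      rw [sig_low]
      have := a.2
      omega
    have h1 := hadj _ _ (adj_chord k ((a : ℕ) + 1) hne)
    have h2 : D.σ k ((a : ℕ) + 1) = m k + (τ k a : ℕ) + 1 := sig_low _ _ _
    rw [h2] at h1
    exact h1

/-- No coarse embedding of the comb. -/
theorem no_coarse {X : Type*} [MetricSpace X] [Nonempty X]
    (hX : ∀ r : ℝ, 0 < r → ∃ N : ℕ, ∀ x : X, ∀ s : Finset X,
        (↑s : Set X) ⊆ Metric.closedBall x r → s.card ≤ N) :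
    ∃ D : Chords, ¬ ∃ f : V D → X, ∃ ρm ρp : ℝ → ℝ,
        MonotoneOn ρm (Set.Ici 0) ∧ MonotoneOn ρp (Set.Ici 0) ∧
        (∀ t : ℝ, 0 ≤ t → 0 ≤ ρm t ∧ 0 ≤ ρp t) ∧
        Filter.Tendsto ρm Filter.atTop Filter.atTop ∧
        ∀ y y' : V D, ρm (dist y y') ≤ dist (f y) (f y') ∧
          dist (f y) (f y') ≤ ρp (dist y y') := by
  obtain ⟨D, hD⟩ := no_regular hX
  refine ⟨D, ?_⟩
  rintro ⟨f, ρm, ρp, hm, hp, hnn, hlim, hf⟩
  apply hD
  obtain ⟨t0, ht0⟩ := Filter.eventually_atTop.mp (hlim.eventually (Filter.eventually_gt_atTop 0))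
  obtain ⟨N, hN⟩ := bddGeom D (max t0 1) (by positivity)
  refine ⟨f, max ⌈ρp 1⌉₊ N, ?_, ?_⟩
  · intro x y hxy
    calc dist (f x) (f y) ≤ ρp (dist x y) := (hf x y).2
      _ ≤ ρp 1 := hp dist_nonneg (by norm_num : (0:ℝ) ≤ 1) hxy
      _ ≤ ⌈ρp 1⌉₊ := Nat.le_ceil _
      _ ≤ _ := by exact_mod_cast le_max_left _ _
  · intro x t ht
    rcases t.eq_empty_or_nonempty with rfl | ⟨y, hy⟩
    · simp
    · refine (hN y t ?_).trans (le_max_right _ _)
      intro z hz
      rw [mem_closedBall]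
      by_contra hlt
      push Not at hlt
      have h1 := ht0 (dist z y) (le_of_lt (lt_of_le_of_lt (le_max_left _ _) hlt))
      have h2 := (hf z y).1
      rw [ht z hz, ht y hy, dist_self] at h2
      linarith

end Pool.Agent.Lib.MP_2fc951_gt
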