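import Mathlib
import Pool.Agent.Lib.MP_2fc951_gt.Comb

set_option autoImplicit false

namespace Pool.Agent.Lib.MP_2fc951_gt

open Metric

section Prob

variable {Y : Type*}

open Classical in
/-- point mass in `ℓ¹` -/
noncomputable def e (v : Y) : lp (fun _ : Y => ℝ) 1 := lp.single 1 v (1 : ℝ)

lemma e_apply_ne {v y : Y} (h : y ≠ v) : e v y = 0 := by
  classical
  unfold e
  exact lp.single_apply_ne _ _ _ h

/-- nonnegative with total mass one -/
def IsProb (ξ : lp (fun _ : Y => ℝ) 1) : Prop := (∀ y, 0 ≤ ξ y) ∧ HasSum (fun y => ξ y) 1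

lemma isProb_e (v : Y) : IsProb (e v) := by
  classical
  constructor
  · intro y
    by_cases h : y = v
    · subst h
      unfold e
      rw [lp.single_apply_self]
      norm_num
    · rw [e_apply_ne h]
  · have := hasSum_single (f := fun y => (e v : lp (fun _ : Y => ℝ) 1) y) v
      (fun y hy => e_apply_ne hy)
    have h2 : (e v : lp (fun _ : Y => ℝ) 1) v = 1 := by
      unfold e
      rw [lp.single_apply_self]
    rwa [h2] at this

lemma IsProb.norm {ξ : lp (fun _ : Y => ℝ) 1} (h : IsProb ξ) : ‖ξ‖ = 1 := by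
  rw [lp.norm_eq_tsum_rpow (by norm_num)]
  have : ∀ y, ‖ξ y‖ ^ (ENNReal.toReal 1) = ξ y := by
    intro y
    rw [ENNReal.toReal_one, Real.rpow_one, Real.norm_of_nonneg (h.1 y)]
  simp only [this, h.2.tsum_eq]
  simp

lemma IsProb.combo {ξ η : lp (fun _ : Y => ℝ) 1} (h : IsProb ξ) (h' : IsProb η) (a b : ℝ)
    (ha : 0 ≤ a) (hb : 0 ≤ b) (hab : a + b = 1) : IsProb (a • ξ + b • η) := by
  constructor
  · intro y
    rw [lp.coeFn_add, lp.coeFn_smul, lp.coeFn_smul]
    simp only [Pi.add_apply, Pi.smul_apply, smul_eq_mul]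
    have := h.1 y
    have := h'.1 y
    positivity
  · have := (h.2.mul_left a).add (h'.2.mul_left b)
    have h1 : a * 1 + b * 1 = 1 := by linarith
    rw [h1] at this
    have h2 : (fun y => (a • ξ + b • η : lp (fun _ : Y => ℝ) 1) y) =
        fun y => a * ξ y + b * η y := by
      funext y
      rw [lp.coeFn_add, lp.coeFn_smul, lp.coeFn_smul]
      simp only [Pi.add_apply, Pi.smul_apply, smul_eq_mul]
    rw [h2]
    exact this

lemma isProb_avg (T : ℕ) (hT : 0 < T) (f : ℕ → Y) :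
    IsProb ((1 / (T : ℝ)) • ∑ j ∈ Finset.range T, e (f j)) := by
  constructor
  · intro y
    rw [lp.coeFn_smul]
    simp only [Pi.smul_apply, smul_eq_mul]
    rw [lp.coeFn_sum, Finset.sum_apply]
    have : ∀ j ∈ Finset.range T, 0 ≤ (e (f j) : lp (fun _ : Y => ℝ) 1) y :=
      fun j _ => (isProb_e _).1 y
    have := Finset.sum_nonneg this
    positivity
  · have h := (hasSum_sum (s := Finset.range T)
      (f := fun j y => (e (f j) : lp (fun _ : Y => ℝ) 1) y) (a := fun _ => 1)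
      (fun j _ => (isProb_e (f j)).2)).mul_left (1 / (T : ℝ))
    have h1 : (1 / (T : ℝ)) * ∑ j ∈ Finset.range T, (1 : ℝ) = 1 := by
      rw [Finset.sum_const, Finset.card_range, nsmul_eq_mul, mul_one]
      field_simp
    rw [h1] at h
    have h2 : (fun y => ((1 / (T : ℝ)) • ∑ j ∈ Finset.range T, e (f j) :
        lp (fun _ : Y => ℝ) 1) y) =
        fun y => (1 / (T : ℝ)) * ∑ j ∈ Finset.range T, (e (f j) : lp (fun _ : Y => ℝ) 1) y := by
      funext y
      rw [lp.coeFn_smul]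
      simp only [Pi.smul_apply, smul_eq_mul]
      rw [lp.coeFn_sum, Finset.sum_apply]
    rw [h2]
    exact h

lemma norm_e (v : Y) : ‖(e v : lp (fun _ : Y => ℝ) 1)‖ = 1 := (isProb_e v).norm

/-- consecutive averages are close -/
lemma norm_avg_sub (T : ℕ) (hT : 0 < T) (f : ℕ → Y) :
    ‖(1 / (T : ℝ)) • ∑ j ∈ Finset.range T, e (f (j + 1)) -
      (1 / (T : ℝ)) • ∑ j ∈ Finset.range T, e (f j)‖ ≤ 2 / T := by
  rw [← smul_sub, ← Finset.sum_sub_distrib, Finset.sum_range_sub (fun j => e (f j)), norm_smul]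
  have h1 : ‖e (f T) - e (f 0)‖ ≤ 2 := by
    calc ‖e (f T) - e (f 0)‖ ≤ ‖e (f T)‖ + ‖e (f 0)‖ := norm_sub_le _ _
      _ = 2 := by rw [norm_e, norm_e]; norm_num
  have h2 : ‖(1 / (T : ℝ))‖ = 1 / T := by
    rw [Real.norm_of_nonneg (by positivity)]
  rw [h2]
  calc 1 / (T : ℝ) * ‖e (f T) - e (f 0)‖ ≤ 1 / T * 2 := by gcongr
    _ = 2 / T := by ring

/-- difference of interpolated measures -/
lemma norm_combo_sub (ψ ψ' η η' : lp (fun _ : Y => ℝ) 1) (hψ : ‖ψ'‖ = 1)
    (hη : ‖η‖ = 1) (hη' : ‖η'‖ = 1)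
    (w w' c : ℝ) (hw0 : 0 ≤ w) (hw1 : w ≤ 1) (hw0' : 0 ≤ w')
    (hc : |w - w'| ≤ c) (h : η = η' ∨ w = 0 ∨ w' = 0) :
    ‖((1 - w) • ψ + w • η) - ((1 - w') • ψ' + w' • η')‖ ≤ ‖ψ - ψ'‖ + 2 * c := by
  have h1 : ((1 - w) • ψ + w • η) - ((1 - w') • ψ' + w' • η') =
      (1 - w) • (ψ - ψ') + ((w' - w) • ψ') + (w • η - w' • η') := by
    rw [smul_sub, sub_smul w' w ψ', sub_smul, sub_smul, sub_smul]
    abel
  rw [h1]
  have h2 : ‖(1 - w) • (ψ - ψ')‖ ≤ ‖ψ - ψ'‖ := by
    rw [norm_smul, Real.norm_of_nonneg (by linarith)]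
    have := norm_nonneg (ψ - ψ')
    nlinarith
  have h3 : ‖(w' - w) • ψ'‖ ≤ c := by
    rw [norm_smul, hψ, mul_one, Real.norm_eq_abs, abs_sub_comm]
    exact hc
  have h4 : ‖w • η - w' • η'‖ ≤ c := by
    rcases h with h | h | h
    · rw [h, ← sub_smul, norm_smul, hη', mul_one, Real.norm_eq_abs]
      exact hc
    · subst h
      rw [zero_smul, zero_sub, norm_neg, norm_smul, hη', mul_one, Real.norm_of_nonneg hw0']
      rw [zero_sub, abs_neg, abs_of_nonneg hw0'] at hc
      exact hc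
    · subst h
      rw [zero_smul, sub_zero, norm_smul, hη, mul_one, Real.norm_of_nonneg hw0]
      rw [sub_zero, abs_of_nonneg hw0] at hc
      exact hc
  calc _ ≤ ‖(1 - w) • (ψ - ψ') + ((w' - w) • ψ')‖ + ‖w • η - w' • η'‖ := norm_add_le _ _
    _ ≤ (‖(1 - w) • (ψ - ψ')‖ + ‖(w' - w) • ψ'‖) + ‖w • η - w' • η'‖ := by
        gcongr; exact norm_add_le _ _
    _ ≤ _ := by linarith

end Prob

variable {D : Chords}

/-- one step towards the root along the tree -/
def s (x : V D) : V D := if x.i = 0 then ⟨x.k - 1, 0⟩ else ⟨x.k, x.i - 1⟩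

lemma dist_s (x : V D) : dist x (s x) ≤ 1 := by
  obtain ⟨k, i⟩ := x
  unfold s
  rcases Nat.eq_zero_or_pos i with rfl | hi
  · rcases Nat.eq_zero_or_pos k with rfl | hk
    · simp
    · obtain ⟨k, rfl⟩ : ∃ k', k = k' + 1 := ⟨k - 1, by omega⟩
      simp only [if_true, Nat.add_sub_cancel]
      rw [dist_comm]
      exact le_of_eq (dist_of_adj (adj_spine k))
  · obtain ⟨i, rfl⟩ : ∃ i', i = i' + 1 := ⟨i - 1, by omega⟩
    simp only [Nat.add_sub_cancel, Nat.succ_ne_zero, if_false]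
    rw [dist_comm]
    exact le_of_eq (dist_of_adj (adj_tooth k i))

lemma dist_s_iter (x : V D) (j : ℕ) : dist x (s^[j] x) ≤ j := by
  induction j with
  | zero => simp
  | succ j ih =>
    rw [Function.iterate_succ_apply']
    have h1 := dist_s (s^[j] x)
    have h2 := dist_triangle x (s^[j] x) (s (s^[j] x))
    push_cast
    linarith

lemma dist_root (k i : ℕ) : dist (⟨k, i⟩ : V D) ⟨0, 0⟩ ≤ k + i := by
  have h1 : ∀ k : ℕ, dist (⟨k, 0⟩ : V D) ⟨0, 0⟩ ≤ k := by
    intro k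
    induction k with
    | zero => simp
    | succ k ih =>
      have h1 := dist_of_adj (adj_spine (D := D) k)
      rw [dist_comm] at h1
      have h2 := dist_triangle (⟨k + 1, 0⟩ : V D) ⟨k, 0⟩ ⟨0, 0⟩
      push_cast
      linarith
  induction i with
  | zero => simpa using h1 k
  | succ i ih =>
    have h1 := dist_of_adj (adj_tooth (D := D) k i)
    rw [dist_comm] at h1
    have h2 := dist_triangle (⟨k, i + 1⟩ : V D) ⟨k, i⟩ ⟨0, 0⟩
    push_cast
    linarith

lemma dist_tooth (k i t : ℕ) : dist (⟨k, i⟩ : V D) ⟨k, i + t⟩ ≤ t := by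
  induction t with
  | zero => simp
  | succ t ih =>
    have h1 := dist_of_adj (adj_tooth (D := D) k (i + t))
    have h2 := dist_triangle (⟨k, i⟩ : V D) ⟨k, i + t⟩ ⟨k, i + (t + 1)⟩
    push_cast
    rw [add_assoc] at h1
    linarith

/-- The local marking: an integer gap (capped at `T`) and a representative. -/
def mark (T K B : ℕ) (x : V D) : ℕ × V D :=
  if (if x.k < K then x.i - B else x.k - K + 1 + x.i) < T then
    ((if x.k < K then x.i - B else x.k - K + 1 + x.i), ⟨0, 0⟩)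
  else if K ≤ x.k ∧ 1 ≤ (x.i + T) / (x.k + 1) ∧ (x.i + T) % (x.k + 1) ≤ 2 * T then
    (((x.i + T) % (x.k + 1) - T) + (T - (x.i + T) % (x.k + 1)),
      ⟨x.k, (x.k + 1) * min ((x.i + T) / (x.k + 1)) (D.σ x.k ((x.i + T) / (x.k + 1)))⟩)
  else (T, ⟨0, 0⟩)

lemma divmod_succ (a s : ℕ) (hs : 0 < s) :
    ((a + 1) / s = a / s ∧ (a + 1) % s = a % s + 1 ∧ a % s + 1 < s) ∨
    ((a + 1) / s = a / s + 1 ∧ (a + 1) % s = 0 ∧ a % s + 1 = s) := by
  have h := Nat.div_add_mod a s
  have hlt := Nat.mod_lt a hs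
  by_cases h1 : a % s + 1 < s
  · left
    have h2 : a + 1 = s * (a / s) + (a % s + 1) := by omega
    refine ⟨?_, ?_, h1⟩
    · rw [h2, Nat.mul_add_div hs, Nat.div_eq_of_lt h1, add_zero]
    · rw [h2, Nat.mul_add_mod, Nat.mod_eq_of_lt h1]
  · right
    have h3 : a % s + 1 = s := by omega
    have h2 : a + 1 = s * (a / s + 1) := by rw [mul_add]; omega
    refine ⟨?_, ?_, h3⟩
    · rw [h2, Nat.mul_div_cancel_left _ hs]
    · rw [h2, Nat.mul_mod_right]

lemma mark_le (T K B : ℕ) (x : V D) : (mark T K B x).1 ≤ T := by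
  unfold mark
  split_ifs <;> simp only <;> omega

lemma mark_tooth (T K B : ℕ) (hT : 0 < T) (hK : 2 * T ≤ K) (k i : ℕ) :
    ((mark T K B (⟨k, i⟩ : V D)).1 ≤ (mark T K B (⟨k, i + 1⟩ : V D)).1 + 1 ∧
      (mark T K B (⟨k, i + 1⟩ : V D)).1 ≤ (mark T K B (⟨k, i⟩ : V D)).1 + 1) ∧
    ((mark T K B (⟨k, i⟩ : V D)).2 = (mark T K B (⟨k, i + 1⟩ : V D)).2 ∨
      T ≤ (mark T K B (⟨k, i⟩ : V D)).1 ∨ T ≤ (mark T K B (⟨k, i + 1⟩ : V D)).1) := by
  unfold mark
  simp only
  by_cases hk : k < K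
  · have hk' : ¬ K ≤ k := by omega
    simp only [hk, if_true, hk', false_and, if_false]
    split_ifs <;> simp <;> omega
  · have hk' : K ≤ k := by omega
    simp only [hk, if_false, hk', true_and]
    have e1 : i + 1 + T = (i + T) + 1 := by omega
    rw [e1]
    rcases divmod_succ (i + T) (k + 1) (Nat.succ_pos k) with ⟨h1, h2, h3⟩ | ⟨h1, h2, h3⟩
    · rw [h1, h2]
      by_cases hlt : k - K + 1 + (i + 1) < T + 1
      · -- near the root region: the quotient is zero
        have hq : (i + T) / (k + 1) = 0 := Nat.div_eq_of_lt (by omega)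
        rw [hq]
        split_ifs <;> simp <;> omega
      · have h4 : ¬ (k - K + 1 + (i + 1) < T) := by omega
        have h5 : ¬ (k - K + 1 + i < T) := by omega
        simp only [h4, h5, if_false]
        split_ifs <;> simp <;> omega
    · rw [h1, h2]
      have h4 : ¬ (k - K + 1 + (i + 1) < T) := by
        intro hlt
        have : (i + T) % (k + 1) = i + T := Nat.mod_eq_of_lt (by omega)
        omega
      have h5 : ¬ (k - K + 1 + i < T) := by
        intro hlt
        have : (i + T) % (k + 1) = i + T := Nat.mod_eq_of_lt (by omega)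
        omega
      simp only [h4, h5, if_false]
      split_ifs <;> simp <;> omega

lemma mark_spine (T K B : ℕ) (hT : 0 < T) (hK : 2 * T ≤ K) (k : ℕ) :
    ((mark T K B (⟨k, 0⟩ : V D)).1 ≤ (mark T K B (⟨k + 1, 0⟩ : V D)).1 + 1 ∧
      (mark T K B (⟨k + 1, 0⟩ : V D)).1 ≤ (mark T K B (⟨k, 0⟩ : V D)).1 + 1) ∧
    ((mark T K B (⟨k, 0⟩ : V D)).2 = (mark T K B (⟨k + 1, 0⟩ : V D)).2 ∨
      T ≤ (mark T K B (⟨k, 0⟩ : V D)).1 ∨ T ≤ (mark T K B (⟨k + 1, 0⟩ : V D)).1) := by
  unfold mark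
  simp only
  by_cases hk : K ≤ k + 1
  · have hq : (0 + T) / (k + 1 + 1) = 0 := Nat.div_eq_of_lt (by omega)
    rw [hq]
    by_cases hk2 : K ≤ k
    · have hq : (0 + T) / (k + 1) = 0 := Nat.div_eq_of_lt (by omega)
      rw [hq]
      split_ifs <;> simp <;> omega
    · split_ifs <;> simp <;> omega
  · split_ifs <;> simp <;> omega

lemma mark_chord (T K B : ℕ) (hT : 0 < T) (hK : 2 * T ≤ K)
    (hB : ∀ k < K, (k + 1) * D.bd k ≤ B) (k j : ℕ) (hj : D.σ k j ≠ j) :
    mark T K B (⟨k, (k + 1) * j⟩ : V D) = mark T K B (⟨k, (k + 1) * D.σ k j⟩ : V D) ∧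
      (mark T K B (⟨k, (k + 1) * j⟩ : V D)).1 = 0 := by
  have hj0 : 1 ≤ j := by
    rcases Nat.eq_zero_or_pos j with h | h
    · rw [h] at hj; exact absurd (D.zero k) hj
    · exact h
  have hj1 : 1 ≤ D.σ k j := by
    rcases Nat.eq_zero_or_pos (D.σ k j) with h | h
    · have := D.invol k j
      rw [h, D.zero] at this
      omega
    · exact h
  have hb0 : j ≤ D.bd k := by
    by_contra h
    exact hj (D.fin k j (by omega))
  have hb1 : D.σ k j ≤ D.bd k := by
    by_contra h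
    have := D.fin k (D.σ k j) (by omega)
    rw [D.invol] at this
    exact hj this.symm
  by_cases hk : k < K
  · have h0 : (k + 1) * j ≤ B := (Nat.mul_le_mul_left _ hb0).trans (hB k hk)
    have h1 : (k + 1) * D.σ k j ≤ B := (Nat.mul_le_mul_left _ hb1).trans (hB k hk)
    unfold mark
    simp only [hk, if_true]
    rw [Nat.sub_eq_zero_of_le h0, Nat.sub_eq_zero_of_le h1]
    simp [hT]
  · have hkK : K ≤ k := by omega
    have key : ∀ j : ℕ, 1 ≤ j → mark T K B (⟨k, (k + 1) * j⟩ : V D) =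
        (0, ⟨k, (k + 1) * min j (D.σ k j)⟩) := by
      intro j hj
      have h0 : k + 1 ≤ (k + 1) * j := Nat.le_mul_of_pos_right _ hj
      have hd : ((k + 1) * j + T) / (k + 1) = j := by
        rw [Nat.mul_add_div (Nat.succ_pos k), Nat.div_eq_of_lt (by omega), add_zero]
      have hm : ((k + 1) * j + T) % (k + 1) = T := by
        rw [Nat.mul_add_mod, Nat.mod_eq_of_lt (by omega)]
      unfold mark
      simp only
      rw [hd, hm]
      have c1 : ¬ ((if k < K then (k + 1) * j - B else k - K + 1 + (k + 1) * j) < T) := by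
        rw [if_neg hk]; omega
      have c2 : K ≤ k ∧ 1 ≤ j ∧ T ≤ 2 * T := ⟨hkK, hj, by omega⟩
      rw [if_neg c1, if_pos c2]
      simp
    rw [key j hj0, key (D.σ k j) hj1, D.invol, min_comm]
    exact ⟨rfl, rfl⟩

/-- where the marking representative lies -/
lemma mark_dist (T K B : ℕ) (hT : 0 < T) (x : V D) (h : (mark T K B x).1 < T) :
    dist x (mark T K B x).2 ≤ (K + B + T + 1 : ℕ) := by
  obtain ⟨k, i⟩ := x
  by_cases c1 : (if k < K then i - B else k - K + 1 + i) < T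
  · have : (mark T K B (⟨k, i⟩ : V D)).2 = ⟨0, 0⟩ := by
      unfold mark; simp only; rw [if_pos c1]
    rw [this]
    refine (dist_root k i).trans ?_
    have : k + i ≤ K + B + T + 1 := by split_ifs at c1 <;> omega
    exact_mod_cast this
  · by_cases c2 : K ≤ k ∧ 1 ≤ (i + T) / (k + 1) ∧ (i + T) % (k + 1) ≤ 2 * T
    · have e1 : (mark T K B (⟨k, i⟩ : V D)).2 =
        ⟨k, (k + 1) * min ((i + T) / (k + 1)) (D.σ k ((i + T) / (k + 1)))⟩ := by
        unfold mark; simp only; rw [if_neg c1, if_pos c2]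
      rw [e1]
      set q := (i + T) / (k + 1) with hq
      have hdm := Nat.div_add_mod (i + T) (k + 1)
      rw [← hq] at hdm
      have hd1 : dist (⟨k, i⟩ : V D) ⟨k, (k + 1) * q⟩ ≤ T := by
        rcases le_total i ((k + 1) * q) with hle | hle
        · obtain ⟨t, ht⟩ := Nat.exists_eq_add_of_le hle
          rw [ht]
          refine (dist_tooth k i t).trans ?_
          have : t ≤ T := by omega
          exact_mod_cast this
        · obtain ⟨t, ht⟩ := Nat.exists_eq_add_of_le hle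
          rw [dist_comm, ht]
          refine (dist_tooth k _ t).trans ?_
          have : t ≤ T := by omega
          exact_mod_cast this
      have hd2 : dist (⟨k, (k + 1) * q⟩ : V D) ⟨k, (k + 1) * min q (D.σ k q)⟩ ≤ 1 := by
        rcases min_choice q (D.σ k q) with h1 | h1
        · rw [h1]; simp
        · rw [h1]
          by_cases h2 : D.σ k q = q
          · rw [h2]; simp
          · exact le_of_eq (dist_of_adj (adj_chord k q h2))
      have h3 := dist_triangle (⟨k, i⟩ : V D) ⟨k, (k + 1) * q⟩ ⟨k, (k + 1) * min q (D.σ k q)⟩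
      push_cast
      have : (0 : ℝ) ≤ K := by positivity
      have : (0 : ℝ) ≤ B := by positivity
      linarith
    · exfalso
      have : (mark T K B (⟨k, i⟩ : V D)).1 = T := by
        unfold mark; simp only; rw [if_neg c1, if_neg c2]
      omega

/-- average of point masses along the path to the root -/
noncomputable def psi (T : ℕ) (x : V D) : lp (fun _ : V D => ℝ) 1 :=
  (1 / (T : ℝ)) • ∑ j ∈ Finset.range T, e (s^[j] x)

/-- the measures witnessing property A -/
noncomputable def xi (T K B : ℕ) (x : V D) : lp (fun _ : V D => ℝ) 1 :=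
  (1 - (1 - ((mark T K B x).1 : ℝ) / T)) • psi T x +
    (1 - ((mark T K B x).1 : ℝ) / T) • e (mark T K B x).2

lemma w_bounds (T K B : ℕ) (hT : 0 < T) (x : V D) :
    0 ≤ 1 - ((mark T K B x).1 : ℝ) / T ∧ 1 - ((mark T K B x).1 : ℝ) / T ≤ 1 := by
  have h := mark_le T K B x
  have hT' : (0 : ℝ) < T := by exact_mod_cast hT
  constructor
  · rw [sub_nonneg, div_le_one hT']
    exact_mod_cast h
  · have : (0 : ℝ) ≤ ((mark T K B x).1 : ℝ) / T := by positivity
    linarith

lemma isProb_xi (T K B : ℕ) (hT : 0 < T) (x : V D) : IsProb (xi T K B x) := by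
  obtain ⟨h0, h1⟩ := w_bounds T K B hT x
  exact (isProb_avg T hT _).combo (isProb_e _) _ _ (by linarith) h0 (by ring)

lemma psi_s (T : ℕ) (hT : 0 < T) (x : V D) : ‖psi T (s x) - psi T x‖ ≤ 2 / T := by
  have := norm_avg_sub T hT (fun j => s^[j] x)
  simp only [Function.iterate_succ_apply] at this
  exact this

lemma xi_close_of_mark (T K B : ℕ) (hT : 0 < T) (x y : V D)
    (hs : ‖psi T x - psi T y‖ ≤ 2 / T)
    (h : ((mark T K B x).1 ≤ (mark T K B y).1 + 1 ∧ (mark T K B y).1 ≤ (mark T K B x).1 + 1) ∧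
    ((mark T K B x).2 = (mark T K B y).2 ∨ T ≤ (mark T K B x).1 ∨ T ≤ (mark T K B y).1)) :
    ‖xi T K B x - xi T K B y‖ ≤ 4 / T := by
  have hT' : (0 : ℝ) < T := by exact_mod_cast hT
  obtain ⟨h0, h1⟩ := w_bounds T K B hT x
  obtain ⟨h0', h1'⟩ := w_bounds T K B hT y
  have hw : |(1 - ((mark T K B x).1 : ℝ) / T) - (1 - ((mark T K B y).1 : ℝ) / T)| ≤ 1 / T := by
    have e1 : (1 - ((mark T K B x).1 : ℝ) / T) - (1 - ((mark T K B y).1 : ℝ) / T) =
      (((mark T K B y).1 : ℝ) - ((mark T K B x).1 : ℝ)) / T := by ring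
    rw [e1, abs_div, abs_of_pos hT']
    gcongr
    rw [abs_le]
    have a1 : ((mark T K B x).1 : ℝ) ≤ (mark T K B y).1 + 1 := by exact_mod_cast h.1.1
    have a2 : ((mark T K B y).1 : ℝ) ≤ (mark T K B x).1 + 1 := by exact_mod_cast h.1.2
    constructor <;> linarith
  have hzero : ∀ z : V D, T ≤ (mark T K B z).1 → 1 - ((mark T K B z).1 : ℝ) / T = 0 := by
    intro z hz
    have : (mark T K B z).1 = T := le_antisymm (mark_le T K B z) hz
    rw [this, div_self (ne_of_gt hT'), sub_self]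
  have hcase : (e (mark T K B x).2 : lp (fun _ : V D => ℝ) 1) = e (mark T K B y).2 ∨
      1 - ((mark T K B x).1 : ℝ) / T = 0 ∨ 1 - ((mark T K B y).1 : ℝ) / T = 0 := by
    rcases h.2 with h2 | h2 | h2
    · left; rw [h2]
    · right; left; exact hzero x h2
    · right; right; exact hzero y h2
  have := norm_combo_sub (psi T x) (psi T y) (e (mark T K B x).2) (e (mark T K B y).2)
    (isProb_avg T hT _).norm (norm_e _) (norm_e _) _ _ (1 / T) h0 h1 h0' hw hcase
  refine (this.trans ?_)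
  calc ‖psi T x - psi T y‖ + 2 * (1 / T) ≤ 2 / T + 2 * (1 / T) := by gcongr
    _ = 4 / T := by ring

lemma xi_adj (T K B : ℕ) (hT : 0 < T) (hK : 2 * T ≤ K)
    (hB : ∀ k < K, (k + 1) * D.bd k ≤ B) (x y : V D) (h : (G D).Adj x y) :
    ‖xi T K B x - xi T K B y‖ ≤ 4 / T := by
  have tooth : ∀ k i : ℕ, ‖xi T K B (⟨k, i⟩ : V D) - xi T K B (⟨k, i + 1⟩ : V D)‖ ≤ 4 / T := by
    intro k i
    apply xi_close_of_mark T K B hT _ _ _ (mark_tooth T K B hT hK k i)
    have : s (⟨k, i + 1⟩ : V D) = ⟨k, i⟩ := by simp [s]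
    rw [← this]
    exact psi_s T hT _
  have spine : ∀ k : ℕ, ‖xi T K B (⟨k, 0⟩ : V D) - xi T K B (⟨k + 1, 0⟩ : V D)‖ ≤ 4 / T := by
    intro k
    apply xi_close_of_mark T K B hT _ _ _ (mark_spine T K B hT hK k)
    have : s (⟨k + 1, 0⟩ : V D) = ⟨k, 0⟩ := by simp [s]
    rw [← this]
    exact psi_s T hT _
  obtain ⟨xk, xi'⟩ := x
  obtain ⟨yk, yi⟩ := y
  obtain ⟨hne, h⟩ := h
  simp only at h
  rcases h with ⟨h1, h2⟩ | ⟨h1, h2, h3⟩ | ⟨h1, j, h2, h3⟩
  · subst h1
    rcases h2 with h2 | h2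
    · subst h2; rw [norm_sub_rev]; exact tooth _ _
    · subst h2; exact tooth _ _
  · subst h1
    subst h2
    rcases h3 with h3 | h3
    · subst h3; rw [norm_sub_rev]; exact spine _
    · subst h3; exact spine _
  · subst h1
    subst h2
    subst h3
    by_cases hj : D.σ xk j = j
    · rw [hj]; simp only [sub_self, norm_zero]; positivity
    · obtain ⟨e1, e2⟩ := mark_chord T K B hT hK hB xk j hj
      have e3 : (mark T K B (⟨xk, (xk + 1) * D.σ xk j⟩ : V D)).1 = 0 := by rw [← e1]; exact e2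
      have e4 : ∀ z : V D, (mark T K B z).1 = 0 → xi T K B z = e (mark T K B z).2 := by
        intro z hz
        unfold xi
        rw [hz]
        simp
      rw [e4 _ e2, e4 _ e3, e1]
      simp only [sub_self, norm_zero]
      positivity

lemma xi_lip (T K B : ℕ) (hT : 0 < T) (hK : 2 * T ≤ K)
    (hB : ∀ k < K, (k + 1) * D.bd k ≤ B) (x y : V D) :
    ‖xi T K B x - xi T K B y‖ ≤ 4 / T * dist x y := by
  obtain ⟨p, hp⟩ := (conn (D := D)).exists_walk_length_eq_dist x y
  rw [dist_def, ← hp]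
  clear hp
  induction p with
  | nil => simp
  | @cons u v w hadj p ih =>
    have h1 := xi_adj T K B hT hK hB _ _ hadj
    have h2 : xi T K B u - xi T K B w =
      (xi T K B u - xi T K B v) + (xi T K B v - xi T K B w) := by abel
    rw [h2, SimpleGraph.Walk.length_cons]
    refine (norm_add_le _ _).trans ?_
    push_cast
    linarith

lemma xi_support (T K B : ℕ) (hT : 0 < T) (x y : V D) (h : xi T K B x y ≠ 0) :
    dist x y ≤ (K + B + T + 1 : ℕ) := by
  by_contra hlt
  push Not at hlt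
  apply h
  unfold xi psi
  rw [lp.coeFn_add, lp.coeFn_smul, lp.coeFn_smul, lp.coeFn_smul, lp.coeFn_sum]
  simp only [Pi.add_apply, Pi.smul_apply, smul_eq_mul, Finset.sum_apply]
  have h1 : ∑ j ∈ Finset.range T, (e (s^[j] x) : lp (fun _ : V D => ℝ) 1) y = 0 := by
    apply Finset.sum_eq_zero
    intro j hj
    apply e_apply_ne
    rintro rfl
    have h2 := dist_s_iter x j
    have h3 : (j : ℝ) ≤ (K + B + T + 1 : ℕ) := by
      have := Finset.mem_range.mp hj
      exact_mod_cast (by omega : j ≤ K + B + T + 1)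
    linarith
  rw [h1]
  by_cases h2 : (mark T K B x).1 < T
  · have h3 := mark_dist T K B hT x h2
    have h4 : (e (mark T K B x).2 : lp (fun _ : V D => ℝ) 1) y = 0 := by
      apply e_apply_ne
      rintro rfl
      linarith
    rw [h4]
    simp
  · have h3 : (mark T K B x).1 = T := le_antisymm (mark_le T K B x) (by omega)
    have hT' : (T : ℝ) ≠ 0 := by positivity
    rw [h3, div_self hT']
    simp

/-- Yu's property A, with values in the real `ℓ¹` space. -/
def PropertyA (X : Type*) [MetricSpace X] : Prop :=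
  ∀ R ε : ℝ, 0 < R → 0 < ε → ∃ S : ℝ, 0 < S ∧ ∃ ξ : X → lp (fun _ : X => ℝ) 1,
    (∀ x, ‖ξ x‖ = 1) ∧ (∀ x y, ξ x y ≠ 0 → dist x y ≤ S) ∧
    ∀ x y, dist x y ≤ R → ‖ξ x - ξ y‖ ≤ ε

/-- The comb has property A. -/
theorem propertyA (D : Chords) : PropertyA (V D) := by
  intro R ε hR hε
  set T : ℕ := ⌈4 * R / ε⌉₊ + 1 with hTdef
  have hT : 0 < T := by omega
  have hT' : (0 : ℝ) < T := by exact_mod_cast hT
  have hTR : 4 / (T : ℝ) * R ≤ ε := by
    have h1 : 4 * R / ε ≤ T := by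
      rw [hTdef]; push_cast
      have := Nat.le_ceil (4 * R / ε)
      linarith
    rw [div_le_iff₀ hε] at h1
    rw [div_mul_eq_mul_div, div_le_iff₀ hT']
    linarith
  set K : ℕ := 2 * T with hK
  set B : ℕ := ∑ k ∈ Finset.range K, (k + 1) * D.bd k with hBdef
  have hB : ∀ k < K, (k + 1) * D.bd k ≤ B := by
    intro k hk
    exact Finset.single_le_sum (f := fun k => (k + 1) * D.bd k) (fun _ _ => Nat.zero_le _)
      (Finset.mem_range.mpr hk)
  refine ⟨(K + B + T + 1 : ℕ), by positivity, xi T K B, fun x => (isProb_xi T K B hT x).norm,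
    fun x y h => xi_support T K B hT x y h, fun x y h => ?_⟩
  refine (xi_lip T K B hT le_rfl hB x y).trans (le_trans ?_ hTR)
  gcongr

end Pool.Agent.Lib.MP_2fc951_gt
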